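import Pool.Agent.H41.Lib.H43R2.Cplx.Liminf
namespace Pool.Agent.H43R2.Cplx

open Filter

/-- floors `⌊x b^m⌋` -/
noncomputable def fl (x : ℝ) (b m : ℕ) : ℕ := ⌊x * (b : ℝ) ^ m⌋₊

theorem fl_succ (x : ℝ) (b : ℕ) [NeZero b] (m : ℕ) :
    fl x b (m + 1) = b * fl x b m + (Real.digits x b m : ℕ) := by
  have hb : (b : ℝ) ≠ 0 := by exact_mod_cast NeZero.ne b
  have h1 : fl x b (m + 1) / b = fl x b m := by
    unfold fl
    rw [← Nat.floor_div_natCast, pow_succ, ← mul_assoc, mul_div_cancel_right₀ _ hb]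
  have h2 : (Real.digits x b m : ℕ) = fl x b (m + 1) % b := by
    unfold Real.digits fl
    rw [Fin.val_ofNat]
  rw [h2, ← h1]
  exact (Nat.div_add_mod _ _).symm

theorem fl_diff {x : ℝ} {b : ℕ} [NeZero b] {i j n : ℕ} (h : E (Real.digits x b) n i j) :
    (fl x b (i + n) : ℤ) - b ^ n * fl x b i = fl x b (j + n) - b ^ n * fl x b j := by
  induction n with
  | zero => simp
  | succ n ih =>
    have h1 := ih (h.mono (by omega))
    have h2 : (Real.digits x b (i + n) : ℕ) = Real.digits x b (j + n) := by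
      rw [h n (by omega)]
    rw [show i + (n + 1) = i + n + 1 by omega, show j + (n + 1) = j + n + 1 by omega,
      fl_succ, fl_succ, h2]
    push_cast
    rw [pow_succ]
    linear_combination (b : ℤ) * h1

theorem approx {x : ℝ} (hx : 0 ≤ x) {b : ℕ} [NeZero b] {i j n : ℕ}
    (h : E (Real.digits x b) n i j) :
    |((b : ℝ) ^ j - (b : ℝ) ^ i) * x - ((fl x b j : ℤ) - (fl x b i : ℤ) : ℤ)| * (b : ℝ) ^ n < 1 := by
  have hb : (0 : ℝ) < b := by exact_mod_cast NeZero.pos b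
  have h1 := fl_diff h
  have h1' : (fl x b (i + n) : ℝ) - b ^ n * fl x b i = fl x b (j + n) - b ^ n * fl x b j := by
    exact_mod_cast h1
  have e : ∀ m, (fl x b m : ℝ) ≤ x * (b : ℝ) ^ m ∧ x * (b : ℝ) ^ m < fl x b m + 1 := by
    intro m
    exact ⟨Nat.floor_le (by positivity), Nat.lt_floor_add_one _⟩
  have ei := e (i + n)
  have ej := e (j + n)
  have h2 : (((b : ℝ) ^ j - (b : ℝ) ^ i) * x - ((fl x b j : ℤ) - (fl x b i : ℤ) : ℤ)) * (b : ℝ) ^ n
      = (x * (b : ℝ) ^ (j + n) - fl x b (j + n)) - (x * (b : ℝ) ^ (i + n) - fl x b (i + n)) := by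
    push_cast
    rw [pow_add, pow_add]
    linarith
  have h3 : |(((b : ℝ) ^ j - (b : ℝ) ^ i) * x - ((fl x b j : ℤ) - (fl x b i : ℤ) : ℤ)) *
      (b : ℝ) ^ n| < 1 := by
    rw [h2, abs_lt]
    constructor <;> linarith [ei.1, ei.2, ej.1, ej.2]
  rwa [abs_mul, abs_of_pos (by positivity : (0 : ℝ) < (b : ℝ) ^ n)] at h3

/-- quantitative form of irrationality exponent two -/
def Exp2 (ξ : ℝ) : Prop := ∀ ε : ℝ, 0 < ε → ∃ c : ℝ, 0 < c ∧ ∀ q : ℕ, 1 ≤ q → ∀ m : ℤ,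
    c ≤ (q : ℝ) ^ (1 + ε) * |q * ξ - m|

theorem Exp2.fract {ξ : ℝ} (h : Exp2 ξ) : Exp2 (Int.fract ξ) := by
  intro ε hε
  obtain ⟨c, hc, hq⟩ := h ε hε
  refine ⟨c, hc, fun q hq1 m => ?_⟩
  have := hq q hq1 (m + q * ⌊ξ⌋)
  have e : (q : ℝ) * Int.fract ξ - m = q * ξ - ((m + q * ⌊ξ⌋ : ℤ) : ℝ) := by
    unfold Int.fract
    push_cast
    ring
  rw [e]
  exact this

theorem rep_of_exp2 {x : ℝ} (hx : 0 ≤ x) (h : Exp2 x) {b : ℕ} [NeZero b] (hb : 2 ≤ b) :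
    Rep (Real.digits x b) := by
  intro ε hε
  obtain ⟨c, hc, hq⟩ := h ε hε
  have hb1 : (1 : ℝ) < b := by exact_mod_cast hb
  have hb0 : (0 : ℝ) < b := by linarith
  have hlog : 0 < Real.log b := Real.log_pos hb1
  refine ⟨-Real.log c / Real.log b, fun i j n hij hE => ?_⟩
  have h1 := approx hx hE
  have hlt : b ^ i < b ^ j := Nat.pow_lt_pow_right hb hij
  have h2 := hq (b ^ j - b ^ i) (by omega) ((fl x b j : ℤ) - (fl x b i : ℤ))
  have hcast : ((b ^ j - b ^ i : ℕ) : ℝ) = (b : ℝ) ^ j - (b : ℝ) ^ i := by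
    rw [Nat.cast_sub hlt.le]; push_cast; ring
  rw [hcast] at h2
  set A := |((b : ℝ) ^ j - (b : ℝ) ^ i) * x - ((fl x b j : ℤ) - (fl x b i : ℤ) : ℤ)| with hA
  have hAnn : 0 ≤ A := abs_nonneg _
  have h3 : ((b : ℝ) ^ j - (b : ℝ) ^ i) ^ (1 + ε) ≤ ((b : ℝ) ^ j) ^ (1 + ε) := by
    apply Real.rpow_le_rpow
    · rw [← hcast]; exact Nat.cast_nonneg _
    · have : (0 : ℝ) < (b : ℝ) ^ i := by positivity
      linarith
    · linarith
  have h4 : c ≤ ((b : ℝ) ^ j) ^ (1 + ε) * A := h2.trans (mul_le_mul_of_nonneg_right h3 hAnn)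
  have h5 : c * (b : ℝ) ^ n ≤ ((b : ℝ) ^ j) ^ (1 + ε) := by
    have h6 : c * (b : ℝ) ^ n ≤ ((b : ℝ) ^ j) ^ (1 + ε) * (A * (b : ℝ) ^ n) := by
      rw [← mul_assoc]
      exact mul_le_mul_of_nonneg_right h4 (by positivity)
    have h7 : ((b : ℝ) ^ j) ^ (1 + ε) * (A * (b : ℝ) ^ n) ≤ ((b : ℝ) ^ j) ^ (1 + ε) * 1 :=
      mul_le_mul_of_nonneg_left h1.le (by positivity)
    linarith
  have h6 := Real.log_le_log (by positivity) h5
  rw [Real.log_mul hc.ne' (by positivity), Real.log_pow, Real.log_rpow (by positivity),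
    Real.log_pow] at h6
  have h8 : (n : ℝ) * Real.log b ≤ ((1 + ε) * j + -Real.log c / Real.log b) * Real.log b := by
    rw [add_mul, div_mul_cancel₀ _ hlog.ne']
    linarith
  exact le_of_mul_le_mul_right h8 hlog

theorem exp2_of_not_liouvilleWith {ξ : ℝ} (hirr : Irrational ξ)
    (h : ∀ p : ℝ, 2 < p → ¬ LiouvilleWith p ξ) : Exp2 ξ := by
  intro ε hε
  have h1 := h (2 + ε) (by linarith)
  unfold LiouvilleWith at h1
  push Not at h1
  have h2 := h1 1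
  rw [Filter.eventually_atTop] at h2
  obtain ⟨Q, hQ⟩ := h2
  have hpos : ∀ q : ℕ, 1 ≤ q → 0 < |(q : ℝ) * ξ - round ((q : ℝ) * ξ)| := by
    intro q hq
    rw [abs_pos, sub_ne_zero]
    have : Irrational ((q : ℝ) * ξ) := hirr.natCast_mul (by omega)
    exact this.ne_int _
  have hfin : ∃ c : ℝ, 0 < c ∧ ∀ q : ℕ, 1 ≤ q → q < Q →
      c ≤ |(q : ℝ) * ξ - round ((q : ℝ) * ξ)| := by
    clear hQ
    induction Q with
    | zero => exact ⟨1, one_pos, fun q _ h => absurd h (by omega)⟩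
    | succ Q ih =>
      obtain ⟨c, hc, hcq⟩ := ih
      rcases Nat.eq_zero_or_pos Q with hz | hz
      · exact ⟨1, one_pos, fun q h1 h => absurd h (by omega)⟩
      · refine ⟨min c |(Q : ℝ) * ξ - round ((Q : ℝ) * ξ)|, lt_min hc (hpos Q hz), ?_⟩
        intro q h1 h2
        rcases Nat.lt_succ_iff_lt_or_eq.mp h2 with h3 | h3
        · exact (min_le_left _ _).trans (hcq q h1 h3)
        · subst h3; exact min_le_right _ _
  obtain ⟨c, hc, hcq⟩ := hfin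
  refine ⟨min c 1, lt_min hc one_pos, fun q hq m => ?_⟩
  have hq0 : (0 : ℝ) < q := by exact_mod_cast hq
  have hq1 : (1 : ℝ) ≤ q := by exact_mod_cast hq
  by_cases hqQ : q < Q
  · have h3 := hcq q hq hqQ
    have h4 := round_le (q * ξ) m
    have h5 : (1 : ℝ) ≤ (q : ℝ) ^ (1 + ε) := Real.one_le_rpow hq1 (by linarith)
    calc min c 1 ≤ c := min_le_left _ _
      _ ≤ |(q : ℝ) * ξ - m| := h3.trans h4
      _ ≤ (q : ℝ) ^ (1 + ε) * |q * ξ - m| := le_mul_of_one_le_left (abs_nonneg _) h5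
  · push Not at hqQ
    have hne : ξ ≠ m / q := by
      intro hh
      apply hirr
      exact ⟨m / q, by push_cast; exact hh.symm⟩
    have h3 := hQ q hqQ m hne
    have h4 : (q : ℝ) ^ (1 + ε) * |q * ξ - m| = (q : ℝ) ^ (2 + ε) * |ξ - m / q| := by
      have e1 : (q : ℝ) * ξ - m = q * (ξ - m / q) := by field_simp
      rw [e1, abs_mul, abs_of_pos hq0, show (2 + ε : ℝ) = (1 + ε) + 1 by ring,
        Real.rpow_add hq0 (1 + ε) 1, Real.rpow_one]
      ring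
    rw [h4]
    have h5 : (0 : ℝ) < (q : ℝ) ^ (2 + ε) := by positivity
    calc min c 1 ≤ 1 := min_le_right _ _
      _ = (q : ℝ) ^ (2 + ε) * (1 / (q : ℝ) ^ (2 + ε)) := by field_simp
      _ ≤ _ := mul_le_mul_of_nonneg_left h3 h5.le

end Pool.Agent.H43R2.Cplx
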