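import Pool.Agent.H41.Lib.H43R2.Cplx.Digits
import Pool.Agent.H41.Lib.H43R2.Cplx.EMeas
namespace Pool.Agent.H43R2.Cplx

open Filter

theorem exp2_e : Exp2 (Real.exp 1) := fun ε hε => EMeas.measure ε hε

theorem liminf_of_exp2 {ξ : ℝ} (h : Exp2 ξ) (b : ℕ) [NeZero b] (hb : 2 ≤ b) {c : ℝ}
    (hc : c < 5 / 4) :
    ∀ᶠ n : ℕ in atTop, c * n < p (Real.digits (Int.fract ξ) b) n :=
  liminf_of_rep (rep_of_exp2 (Int.fract_nonneg ξ) h.fract hb) hc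

end Pool.Agent.H43R2.Cplx
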